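import Pool.Agent.Helper35.PQF.St

/-!
# Module HL of project PQF (MP_d112a4_gt): lengths are harmonic.
-/

open Filter Topology Matrix Set MeasureTheory
open scoped ENNReal ComplexOrder

namespace Pool.Agent.Helper45.PM

open Pool.Agent.Helper35.PM

/-- Holomorphic logarithm on the unit disc. -/
theorem hlog (h : ℂ → ℂ) (hd : DifferentiableOn ℂ h (Metric.ball 0 1))
    (hn : ∀ z ∈ Metric.ball (0 : ℂ) 1, h z ≠ 0) :
    ∃ L : ℂ → ℂ, DifferentiableOn ℂ L (Metric.ball 0 1) ∧
      ∀ z ∈ Metric.ball (0 : ℂ) 1, Complex.exp (L z) = h z := by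
  have ho : IsOpen (Metric.ball (0 : ℂ) 1) := Metric.isOpen_ball
  have h0 : (0 : ℂ) ∈ Metric.ball (0 : ℂ) 1 := Metric.mem_ball_self one_pos
  have hdd : DifferentiableOn ℂ (fun z => deriv h z / h z) (Metric.ball 0 1) :=
    (hd.deriv ho).div hd hn
  obtain ⟨F, hF0, hF⟩ := hdd.isExactOn_ball.with_val_at 0 (Complex.log (h 0))
  refine ⟨F, fun z hz => (hF z hz).differentiableAt.differentiableWithinAt, ?_⟩
  -- the function `exp (-F) * h` is constant
  have hder : ∀ z ∈ Metric.ball (0 : ℂ) 1,
      HasDerivAt (fun z => Complex.exp (-F z) * h z) 0 z := by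
    intro z hz
    have h1 : HasDerivAt h (deriv h z) z := (hd.differentiableAt (ho.mem_nhds hz)).hasDerivAt
    have h2 : HasDerivAt (fun z => Complex.exp (-F z))
        (Complex.exp (-F z) * (-(deriv h z / h z))) z := ((hF z hz).neg).cexp
    have h3 := h2.mul h1
    have h4 : Complex.exp (-F z) * (-(deriv h z / h z)) * h z + Complex.exp (-F z) * deriv h z
        = 0 := by
      have := hn z hz
      field_simp
      ring
    rw [h4] at h3
    exact h3
  obtain ⟨a, ha⟩ := ho.exists_is_const_of_deriv_eq_zero (convex_ball (0 : ℂ) 1).isPreconnected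
    (fun z hz => (hder z hz).differentiableAt.differentiableWithinAt)
    (fun z hz => (hder z hz).deriv)
  have ha1 : a = 1 := by
    rw [← ha 0 h0]
    rw [hF0, Complex.exp_neg, Complex.exp_log (hn 0 h0)]
    exact inv_mul_cancel₀ (hn 0 h0)
  intro z hz
  have h5 := ha z hz
  rw [ha1, Complex.exp_neg] at h5
  have h6 := Complex.exp_ne_zero (F z)
  field_simp at h5
  exact h5.symm

theorem hl (hs2 : St_HS2) : St_HL := by
  intro A hA hpos
  obtain ⟨-, hroot, -⟩ := hs2
  set B := Metric.ball (0 : ℂ) 1 with hB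
  have ho : IsOpen B := Metric.isOpen_ball
  set τ : ℂ → ℂ := fun z => (A z : Mat).trace with hτ
  have hτd : DifferentiableOn ℂ τ B := by
    have : τ = fun z => (A z : Mat) 0 0 + (A z : Mat) 1 1 := by
      funext z
      simp [hτ, Matrix.trace, Fin.sum_univ_two]
    rw [this]
    exact (hA 0 0).add (hA 1 1)
  -- the discriminant does not vanish
  have hdisc : ∀ z ∈ B, τ z ^ 2 - 4 ≠ 0 := by
    intro z hz h0
    have h1 : (τ z - 2) * (τ z + 2) = 0 := by rw [← h0]; ring
    rcases mul_eq_zero.mp h1 with h | h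
    · have h2 : (A z : Mat).trace = 2 := by linear_combination h
      have h3 := hroot (A z) 1 (by rw [h2]; norm_num)
      have h4 := hpos z hz
      rw [h3] at h4
      simp at h4
    · have h2 : (A z : Mat).trace = -2 := by linear_combination h
      have h3 := hroot (A z) (-1) (by rw [h2]; norm_num)
      have h4 := hpos z hz
      rw [h3] at h4
      simp at h4
  obtain ⟨L₁, hL₁d, hL₁⟩ := hlog (fun z => τ z ^ 2 - 4)
    ((hτd.pow 2).sub (differentiableOn_const _)) hdisc
  set s : ℂ → ℂ := fun z => Complex.exp (L₁ z / 2) with hs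
  have hsd : DifferentiableOn ℂ s B := (hL₁d.div_const 2).cexp
  have hs2' : ∀ z ∈ B, s z ^ 2 = τ z ^ 2 - 4 := by
    intro z hz
    rw [← hL₁ z hz, hs]
    simp only
    rw [← Complex.exp_nat_mul]
    congr 1
    push_cast
    ring
  set l : ℂ → ℂ := fun z => (τ z + s z) / 2 with hl
  have hld : DifferentiableOn ℂ l B := (hτd.add hsd).div_const 2
  have hleq : ∀ z ∈ B, l z ^ 2 - (A z : Mat).trace * l z + 1 = 0 := by
    intro z hz
    have h1 := hs2' z hz
    have h2 : (A z : Mat).trace = τ z := rfl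
    rw [h2]
    simp only [hl]
    linear_combination (1 / 4 : ℂ) * h1
  have hlne : ∀ z ∈ B, l z ≠ 0 := by
    intro z hz h0
    have h1 := hleq z hz
    rw [h0] at h1
    norm_num at h1
  obtain ⟨L, hLd, hL⟩ := hlog l hld hlne
  have hlen : ∀ z ∈ B, tl (A z) = 2 * |(L z).re| := by
    intro z hz
    rw [hroot (A z) (l z) (hleq z hz), ← hL z hz, Complex.norm_exp, Real.log_exp]
  have hre : ContinuousOn (fun z => (L z).re) B :=
    Complex.continuous_re.comp_continuousOn hLd.continuousOn
  have hne : ∀ z ∈ B, (L z).re ≠ 0 := by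
    intro z hz h0
    have h1 := hpos z hz
    rw [hlen z hz, h0] at h1
    simp at h1
  have hconn : IsPreconnected B := (convex_ball (0 : ℂ) 1).isPreconnected
  have h0 : (0 : ℂ) ∈ B := Metric.mem_ball_self one_pos
  -- constant sign
  have hsign : (∀ z ∈ B, 0 < (L z).re) ∨ (∀ z ∈ B, (L z).re < 0) := by
    by_contra hcon
    push Not at hcon
    obtain ⟨⟨z1, hz1, h1⟩, ⟨z2, hz2, h2⟩⟩ := hcon
    have hivt := hconn.intermediate_value hz1 hz2 hre
    obtain ⟨z, hz, h⟩ := hivt (show (0 : ℝ) ∈ Set.Icc _ _ from ⟨h1, h2⟩)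
    exact hne z hz h
  rcases hsign with hsg | hsg
  · refine ⟨fun z => 2 * L z, hLd.const_mul 2, ?_⟩
    intro z hz
    rw [hlen z hz, abs_of_pos (hsg z hz)]
    simp
  · refine ⟨fun z => -2 * L z, hLd.const_mul (-2), ?_⟩
    intro z hz
    rw [hlen z hz, abs_of_neg (hsg z hz)]
    simp

end Pool.Agent.Helper45.PM
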