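import Pool.Agent.Helper62.PM.St7

/-!
# Project PM part 7 (MP_ae3a4d_gt), module CMP: comparison for large `n`
-/

set_option autoImplicit false

open MeasureTheory Metric Set Filter Topology Polynomial
open scoped RealInnerProductSpace ContDiff

namespace Pool.Agent.Helper45.PM6

open Pool.Agent.Helper62.PM6
open Pool.Agent.Helper62.Mink

/-- one side -/
private theorem side (g : ℝ → ℝ) (hg : ContinuousOn g (Icc 0 1)) (h : PosFirst g) :
    ∃ r : ℝ, 0 < r ∧ ∃ n₀ : ℕ, ∀ n : ℕ, n₀ ≤ n → ∀ t ∈ Icc (0 : ℝ) 1,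
      (1 - t ^ 2 / 2) * max (t - r) 0 ^ 2 - (n : ℝ) / 2 * t * (max (t - r) 0 ^ 3 / 3) ≤ g t := by
  rcases h with h | ⟨ρ, hρ, h0, hpos⟩
  · refine ⟨1, one_pos, 0, fun n _ t ht => ?_⟩
    have e : max (t - 1) 0 = 0 := max_eq_right (by linarith [ht.2])
    rw [e]
    have := h t ht
    simp only [ne_eq, OfNat.ofNat_ne_zero, not_false_eq_true, zero_pow, mul_zero, zero_div, sub_zero]
    exact this
  · obtain ⟨hρ0, hρ1⟩ := hρ
    set m : ℝ := g ρ / 2 with hm
    have hm0 : 0 < m := by rw [hm]; linarith
    obtain ⟨δ, hδ, hcont⟩ := Metric.continuousWithinAt_iff.1 (hg ρ ⟨hρ0.le, hρ1.le⟩) m hm0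
    set r : ℝ := max (ρ / 2) (ρ - δ / 2) with hr
    have hr0 : 0 < r := lt_of_lt_of_le (by linarith) (le_max_left _ _)
    have hrρ : r < ρ := max_lt (by linarith) (by linarith)
    have hrδ : ρ - δ / 2 ≤ r := le_max_right _ _
    obtain ⟨B, hB⟩ := isCompact_Icc.exists_bound_of_continuousOn hg
    have hB0 : 0 ≤ B := (norm_nonneg _).trans (hB 0 ⟨le_refl _, zero_le_one⟩)
    set d : ℝ := ρ - r with hd
    have hd0 : 0 < d := by rw [hd]; linarith
    set c0 : ℝ := (1 + 1 / m) + (1 + B / d ^ 2) / d with hc0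
    have hp1 : 0 ≤ (1 + B / d ^ 2) / d := by positivity
    have hp2 : 0 ≤ 1 / m := by positivity
    refine ⟨r, hr0, ⌈6 * c0 / r⌉₊, fun n hn t ht => ?_⟩
    obtain ⟨ht0, ht1⟩ := ht
    rcases le_or_gt t r with htr | htr
    · have e : max (t - r) 0 = 0 := max_eq_right (by linarith)
      rw [e]
      have := h0 t ⟨ht0, by linarith⟩
      simp only [ne_eq, OfNat.ofNat_ne_zero, not_false_eq_true, zero_pow, mul_zero, zero_div, sub_zero]
      exact this
    · have e : max (t - r) 0 = t - r := max_eq_left (by linarith)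
      rw [e]
      obtain ⟨x, hx⟩ : ∃ x : ℝ, x = t - r := ⟨_, rfl⟩
      rw [← hx]
      have hx0 : 0 < x := by rw [hx]; linarith
      have hn' : 6 * c0 / r ≤ (n : ℝ) := (Nat.le_ceil _).trans (by exact_mod_cast hn)
      obtain ⟨c, hc⟩ : ∃ c : ℝ, c = (n : ℝ) * r / 6 := ⟨_, rfl⟩
      have hcc : c0 ≤ c := by
        rw [div_le_iff₀ hr0] at hn'
        rw [hc]
        linarith
      have hc1 : 1 + 1 / m ≤ c := by rw [hc0] at hcc; linarith
      have hc2 : (1 + B / d ^ 2) / d ≤ c := by rw [hc0] at hcc; linarith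
      have hcpos : 1 ≤ c := by linarith
      -- the main inequality
      have main : (1 - t ^ 2 / 2) * x ^ 2 - (n : ℝ) / 2 * t * (x ^ 3 / 3) ≤ x ^ 2 * (1 - c * x) := by
        have e1 : (n : ℝ) / 2 * t * (x ^ 3 / 3) = (n : ℝ) / 6 * x ^ 3 * t := by ring
        have e2 : x ^ 2 * (1 - c * x) = x ^ 2 - (n : ℝ) / 6 * x ^ 3 * r := by rw [hc]; ring
        rw [e1, e2]
        have e3 : (n : ℝ) / 6 * x ^ 3 * r ≤ (n : ℝ) / 6 * x ^ 3 * t := by
          apply mul_le_mul_of_nonneg_left htr.le
          positivity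
        have e4 : (1 - t ^ 2 / 2) * x ^ 2 ≤ 1 * x ^ 2 := by
          apply mul_le_mul_of_nonneg_right _ (by positivity)
          have : 0 ≤ t ^ 2 := sq_nonneg t
          linarith
        linarith
      refine main.trans ?_
      rcases le_or_gt t ρ with htρ | htρ
      · -- `r ≤ t ≤ ρ`
        have hgt : m ≤ g t := by
          have h1 := hcont (x := t) ⟨ht0, ht1⟩ (by
            rw [Real.dist_eq, abs_lt]
            constructor <;> linarith)
          rw [Real.dist_eq, abs_lt] at h1
          have : g ρ = 2 * m := by rw [hm]; ring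
          linarith [h1.1]
        refine le_trans ?_ hgt
        rcases le_or_gt (c * x) 1 with h1 | h1
        · have h2 : (c * x) ^ 2 ≤ 1 := by
            have : 0 ≤ c * x := by positivity
            nlinarith
          have h3 : 1 ≤ c * m := by
            have : 1 / m ≤ c := by linarith
            rwa [div_le_iff₀ hm0] at this
          have h4 : c * m ≤ c ^ 2 * m := by
            apply mul_le_mul_of_nonneg_right _ hm0.le
            nlinarith
          have h5 : c ^ 2 * x ^ 2 ≤ c ^ 2 * m := by nlinarith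
          have h6 : x ^ 2 ≤ m := le_of_mul_le_mul_left h5 (by positivity)
          have h7 : x ^ 2 * (1 - c * x) ≤ x ^ 2 * 1 := by
            apply mul_le_mul_of_nonneg_left _ (by positivity)
            have : 0 ≤ c * x := by positivity
            linarith
          linarith
        · have h2 : x ^ 2 * (1 - c * x) ≤ 0 :=
            mul_nonpos_of_nonneg_of_nonpos (by positivity) (by linarith)
          linarith
      · -- `ρ < t`
        have hxd : d ≤ x := by rw [hx, hd]; linarith
        have hgt : -B ≤ g t := by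
          have := hB t ⟨ht0, ht1⟩
          rw [Real.norm_eq_abs] at this
          exact (abs_le.1 this).1
        refine le_trans ?_ hgt
        have h1 : 1 + B / d ^ 2 ≤ c * x := by
          rw [div_le_iff₀ hd0] at hc2
          have : c * d ≤ c * x := mul_le_mul_of_nonneg_left hxd (by linarith)
          linarith
        have h2 : B ≤ x ^ 2 * (B / d ^ 2) := by
          have h3 : d ^ 2 ≤ x ^ 2 := by nlinarith
          calc B = d ^ 2 * (B / d ^ 2) := by field_simp
            _ ≤ x ^ 2 * (B / d ^ 2) := mul_le_mul_of_nonneg_right h3 (by positivity)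
        have h4 : x ^ 2 * (1 - c * x) ≤ x ^ 2 * (-(B / d ^ 2)) :=
          mul_le_mul_of_nonneg_left (by linarith) (by positivity)
        linarith

/-- MODULE CMP. -/
theorem hCMP : StCMP := by
  intro f b hf h1 h2
  have c1 : ContinuousOn (fun t => f t - b * t) (Icc 0 1) :=
    (hf.mono (Icc_subset_Icc (by norm_num) le_rfl)).sub (continuous_const.mul continuous_id).continuousOn
  have c2 : ContinuousOn (fun t => f (-t) + b * t) (Icc 0 1) := by
    refine ContinuousOn.add ?_ (continuous_const.mul continuous_id).continuousOn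
    refine ContinuousOn.comp (t := Icc (-1) 1) hf continuous_neg.continuousOn ?_
    intro t ht
    exact ⟨by linarith [ht.2], by linarith [ht.1]⟩
  obtain ⟨r, hr, n1, k1⟩ := side _ c1 h1
  obtain ⟨r', hr', n2, k2⟩ := side _ c2 h2
  refine ⟨r, r', hr, hr', max n1 n2, fun n hn t ht => ?_⟩
  rcases le_or_gt 0 t with h0 | h0
  · have e := k1 n ((le_max_left _ _).trans hn) t ⟨h0, ht.2⟩
    have e1 : max (-t - r') 0 = 0 := max_eq_right (by linarith)
    have e2 : pr n r r' t = (1 - t ^ 2 / 2) * max (t - r) 0 ^ 2 -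
        (n : ℝ) / 2 * t * (max (t - r) 0 ^ 3 / 3) := by
      unfold pr psi Psi
      rw [e1]
      ring
    rw [e2]
    linarith
  · have e := k2 n ((le_max_right _ _).trans hn) (-t) ⟨by linarith, by linarith [ht.1]⟩
    have e1 : max (t - r) 0 = 0 := max_eq_right (by linarith)
    have e2 : pr n r r' t = (1 - (-t) ^ 2 / 2) * max (-t - r') 0 ^ 2 -
        (n : ℝ) / 2 * (-t) * (max (-t - r') 0 ^ 3 / 3) := by
      unfold pr psi Psi
      rw [e1]
      ring
    rw [e2]
    simp only [neg_neg] at e
    linarith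

end Pool.Agent.Helper45.PM6
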