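import Pool.Agent.Helper62.PM.St

set_option autoImplicit false

open MeasureTheory Metric Set Filter Topology
open scoped RealInnerProductSpace ContDiff

namespace Pool.Agent.Helper45.PM

open Pool.Agent.Helper62.PM
open Pool.Agent.Helper62.Mink

private lemma sub_smul {n : ℕ} (K : ConvexBody (E n)) {c : ℝ} (hc : 0 ≤ c) :
    Sublinear (fun x => c * supp K x) where
  pos_hom := fun a ha x => by
    show c * supp K (a • x) = a * (c * supp K x)
    rw [(supp_sublinear K).pos_hom a ha x]; ring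
  add_le := fun x y => by
    show c * supp K (x + y) ≤ c * supp K x + c * supp K y
    rw [← mul_add]
    exact mul_le_mul_of_nonneg_left ((supp_sublinear K).add_le x y) hc

private lemma ex_smul {n : ℕ} (K : ConvexBody (E n)) {c : ℝ} (hc : 0 ≤ c) :
    ∃ L : ConvexBody (E n), ∀ x, supp L x = c * supp K x := by
  obtain ⟨L, hL⟩ := exists_body (sub_smul K hc)
  exact ⟨L, fun x => by rw [hL]⟩

private lemma T_eq {n : ℕ} {T : ConvexBody (E n) → ConvexBody (E n)} (hT : Admissible T)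
    {K L M : ConvexBody (E n)} (h : ∀ x, supp L x = supp K x + supp M x) (x : E n) :
    supp (T L) x = supp (T K) x + supp (T M) x := by
  have : L = K + M := supp_inj (by funext u; rw [supp_add]; exact h u)
  rw [this]
  exact hT.additive K M x

private lemma T_nat {n : ℕ} {T : ConvexBody (E n) → ConvexBody (E n)} (hT : Admissible T)
    (K : ConvexBody (E n)) (k : ℕ) : ∀ (L : ConvexBody (E n)), (∀ x, supp L x = (k : ℝ) * supp K x) →
      ∀ x, supp (T L) x = (k : ℝ) * supp (T K) x := by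
  induction k with
  | zero =>
    intro L hL x
    have h0 : ∀ x, supp L x = supp L x + supp L x := fun x => by rw [hL x]; simp
    have := T_eq hT h0 x
    simp
    linarith
  | succ k ih =>
    intro L hL x
    obtain ⟨M, hM⟩ := ex_smul K (c := (k : ℝ)) (Nat.cast_nonneg k)
    have h1 : ∀ x, supp L x = supp M x + supp K x := fun x => by
      rw [hL x, hM x]; push_cast; ring
    rw [T_eq hT h1 x, ih M hM x]; push_cast; ring

private lemma T_small {n : ℕ} {T : ConvexBody (E n) → ConvexBody (E n)} (hT : Admissible T) :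
    ∃ δ : ℝ, 0 < δ ∧ ∀ K : ConvexBody (E n), (∀ x, |supp K x| ≤ δ * ‖x‖) →
      ∀ x, |supp (T K) x| ≤ ‖x‖ := by
  have hz : Sublinear (fun _ : E n => (0 : ℝ)) := ⟨fun c _ x => by simp, fun x y => by simp⟩
  obtain ⟨Z, hZ⟩ := exists_body hz
  have hTZ : ∀ x, supp (T Z) x = 0 := fun x => by
    have := T_nat hT Z 0 Z (fun x => by rw [hZ]; simp) x
    simpa using this
  obtain ⟨δ, hδ, h⟩ := (Metric.continuous_iff.1 hT.continuous) Z 1 one_pos
  refine ⟨δ / 2, half_pos hδ, fun K hK x => ?_⟩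
  have h1 : dist K Z ≤ δ / 2 := dist_le_of_supp (half_pos hδ).le fun u => by
    rw [hZ]; simpa using hK u
  have h2 := h K (by linarith)
  have h3 := abs_supp_sub_le (T K) (T Z) x
  rw [hTZ x, sub_zero] at h3
  calc |supp (T K) x| ≤ dist (T K) (T Z) * ‖x‖ := h3
    _ ≤ 1 * ‖x‖ := mul_le_mul_of_nonneg_right h2.le (norm_nonneg x)
    _ = ‖x‖ := one_mul _

private lemma T_rat {n : ℕ} {T : ConvexBody (E n) → ConvexBody (E n)} (hT : Admissible T)
    (K L : ConvexBody (E n)) (j k : ℕ) (hk : 0 < k) (h : ∀ x, supp L x = ((j : ℝ) / k) * supp K x)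
    (x : E n) : supp (T L) x = ((j : ℝ) / k) * supp (T K) x := by
  have hk' : (0 : ℝ) < k := by exact_mod_cast hk
  obtain ⟨M, hM⟩ := ex_smul K (c := (j : ℝ)) (Nat.cast_nonneg j)
  have h1 := T_nat hT K j M hM x
  have h2 := T_nat hT L k M (fun x => by rw [hM x, h x]; field_simp) x
  rw [h1] at h2
  field_simp
  linarith

private lemma T_bound {n : ℕ} {T : ConvexBody (E n) → ConvexBody (E n)} (hT : Admissible T) :
    ∃ C : ℝ, 0 ≤ C ∧ ∀ (K : ConvexBody (E n)) (ρ : ℝ), 0 ≤ ρ → (∀ x, |supp K x| ≤ ρ * ‖x‖) →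
      ∀ x, |supp (T K) x| ≤ C * ρ * ‖x‖ := by
  obtain ⟨δ, hδ, hs⟩ := T_small hT
  refine ⟨1 / δ, by positivity, fun K ρ hρ hK x => ?_⟩
  refine le_of_forall_pos_le_add fun ε hε => ?_
  obtain ⟨j, hj⟩ := exists_nat_gt (2 * ‖x‖ / ε)
  have hj0 : (0 : ℝ) < j := lt_of_le_of_lt (by positivity) hj
  set k : ℕ := ⌊(j : ℝ) * ρ / δ⌋₊ + 1 with hk
  have hk0 : 0 < k := Nat.succ_pos _
  have hk0' : (0 : ℝ) < k := by exact_mod_cast hk0
  have hkl : (j : ℝ) * ρ / δ ≤ k := by
    rw [hk]; push_cast; exact (Nat.lt_floor_add_one _).le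
  have hku : (k : ℝ) ≤ (j : ℝ) * ρ / δ + 1 := by
    rw [hk]; push_cast
    have := Nat.floor_le (show 0 ≤ (j : ℝ) * ρ / δ by positivity)
    linarith
  obtain ⟨L, hL⟩ := ex_smul K (c := (j : ℝ) / k) (by positivity)
  have h1 : ∀ u, |supp (T L) u| ≤ ‖u‖ := hs L fun u => by
    rw [hL u, abs_mul, abs_of_nonneg (show 0 ≤ (j : ℝ) / k by positivity)]
    calc (j : ℝ) / k * |supp K u| ≤ (j : ℝ) / k * (ρ * ‖u‖) :=
          mul_le_mul_of_nonneg_left (hK u) (by positivity)
      _ = ((j : ℝ) * ρ / k) * ‖u‖ := by ring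
      _ ≤ δ * ‖u‖ := by
          refine mul_le_mul_of_nonneg_right ?_ (norm_nonneg u)
          rw [div_le_iff₀ hk0']
          rw [div_le_iff₀ hδ] at hkl
          linarith
  have h2 := h1 x
  rw [T_rat hT K L j k hk0 hL x, abs_mul, abs_of_nonneg (show 0 ≤ (j : ℝ) / k by positivity)] at h2
  have h3 : |supp (T K) x| ≤ (k : ℝ) / j * ‖x‖ := by
    have e : |supp (T K) x| = (k : ℝ) / j * ((j : ℝ) / k * |supp (T K) x|) := by
      field_simp
    rw [e]
    exact mul_le_mul_of_nonneg_left h2 (by positivity)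
  have h4 : (k : ℝ) / j ≤ 1 / δ * ρ + 1 / j := by
    rw [div_le_iff₀ hj0]
    have : (1 / δ * ρ + 1 / (j : ℝ)) * j = (j : ℝ) * ρ / δ + 1 := by field_simp
    rw [this]; exact hku
  calc |supp (T K) x| ≤ (k : ℝ) / j * ‖x‖ := h3
    _ ≤ (1 / δ * ρ + 1 / j) * ‖x‖ := mul_le_mul_of_nonneg_right h4 (norm_nonneg x)
    _ = 1 / δ * ρ * ‖x‖ + ‖x‖ / j := by ring
    _ ≤ 1 / δ * ρ * ‖x‖ + ε := by
        have : ‖x‖ / j ≤ ε := by
          rw [div_le_iff₀ hj0]
          rw [div_lt_iff₀ hε] at hj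
          nlinarith [norm_nonneg x]
        linarith

private lemma supp_bd {n : ℕ} (K : ConvexBody (E n)) :
    ∃ ρ : ℝ, 0 ≤ ρ ∧ ∀ x, |supp K x| ≤ ρ * ‖x‖ := by
  obtain ⟨ρ, hρ, h⟩ := (supp_sublinear K).exists_bound
  refine ⟨ρ, hρ, fun x => abs_le.2 ⟨?_, h x⟩⟩
  have h1 := (supp_sublinear K).add_le x (-x)
  have h2 := h (-x)
  rw [norm_neg] at h2
  rw [add_neg_cancel, (supp_sublinear K).map_zero] at h1
  linarith

theorem hH : StH := by
  intro n T hT
  obtain ⟨C, hC, hb⟩ := T_bound hT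
  refine ⟨⟨C, hC, hb⟩, ?_⟩
  intro K L c hc hL x
  obtain ⟨ρ, hρ, hK⟩ := supp_bd K
  have hTK := hb K ρ hρ hK x
  have key : ∀ k : ℕ, 0 < k → |supp (T L) x - c * supp (T K) x| ≤ (2 * C * ρ * ‖x‖) / k := by
    intro k hk
    have hk' : (0 : ℝ) < k := by exact_mod_cast hk
    set p : ℕ := ⌊c * k⌋₊ with hp
    have hp1 : (p : ℝ) ≤ c * k := Nat.floor_le (by positivity)
    have hp2 : c * k < (p : ℝ) + 1 := Nat.lt_floor_add_one _
    set r : ℝ := c - (p : ℝ) / k with hr
    have hr0 : 0 ≤ r := by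
      rw [hr, sub_nonneg, div_le_iff₀ hk']; exact hp1
    have hr1 : r ≤ 1 / k := by
      rw [hr, le_div_iff₀ hk', sub_mul, div_mul_cancel₀ _ hk'.ne']; linarith
    obtain ⟨M, hM⟩ := ex_smul K (c := (p : ℝ) / k) (by positivity)
    obtain ⟨R, hR⟩ := ex_smul K hr0
    have h1 := T_eq hT (K := M) (L := L) (M := R) (fun u => by
      rw [hL u, hM u, hR u, hr]; ring) x
    have h2 := T_rat hT K M p k hk hM x
    have h3 := hb R (r * ρ) (by positivity) (fun u => by
      rw [hR u, abs_mul, abs_of_nonneg hr0, mul_assoc]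
      exact mul_le_mul_of_nonneg_left (hK u) hr0) x
    have h4 : supp (T L) x - c * supp (T K) x = supp (T R) x - r * supp (T K) x := by
      rw [h1, h2, hr]; ring
    rw [h4]
    have h5 : |r * supp (T K) x| ≤ r * (C * ρ * ‖x‖) := by
      rw [abs_mul, abs_of_nonneg hr0]; exact mul_le_mul_of_nonneg_left hTK hr0
    calc |supp (T R) x - r * supp (T K) x| ≤ |supp (T R) x| + |r * supp (T K) x| := abs_sub _ _
      _ ≤ C * (r * ρ) * ‖x‖ + r * (C * ρ * ‖x‖) := add_le_add h3 h5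
      _ = r * (2 * C * ρ * ‖x‖) := by ring
      _ ≤ 1 / k * (2 * C * ρ * ‖x‖) := mul_le_mul_of_nonneg_right hr1 (by positivity)
      _ = (2 * C * ρ * ‖x‖) / k := by ring
  have hlim : |supp (T L) x - c * supp (T K) x| ≤ 0 := by
    refine le_of_forall_pos_le_add fun ε hε => ?_
    obtain ⟨k, hk⟩ := exists_nat_gt ((2 * C * ρ * ‖x‖) / ε)
    have hk0 : (0 : ℝ) < k := lt_of_le_of_lt (by positivity) hk
    have hk1 : 0 < k := by exact_mod_cast hk0
    refine (key k hk1).trans ?_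
    rw [zero_add, div_le_iff₀ hk0]
    rw [div_lt_iff₀ hε] at hk
    linarith
  have := abs_nonpos_iff.1 hlim
  linarith

end Pool.Agent.Helper45.PM
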