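import Pool.Agent.Helper62.PM.St2

set_option autoImplicit false

open MeasureTheory Metric Set Filter Topology Polynomial
open scoped RealInnerProductSpace ContDiff

namespace Pool.Agent.Helper45.PM

open Pool.Agent.Helper62.PM
open Pool.Agent.Helper62.Mink

private lemma uds {n : ℕ} : UniqueDiffOn ℝ ({0}ᶜ : Set (E n)) :=
  (isOpen_compl_singleton).uniqueDiffOn

private lemma ne0 {n : ℕ} {x : E n} (hx : ‖x‖ = 1) : x ∈ ({0}ᶜ : Set (E n)) := by
  intro h
  rw [mem_singleton_iff] at h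
  rw [h, norm_zero] at hx
  exact zero_ne_one hx

/-- bounds for sums of products with fixed smooth coefficients -/
private lemma gen {n : ℕ} {ι : Type} [Fintype ι] (A : ι → E n → (E n →L[ℝ] ℝ))
    (hA : ∀ p, ContDiffOn ℝ ∞ (A p) {0}ᶜ) (N : ℕ) :
    ∃ K : ℝ, 0 ≤ K ∧ ∀ (g : ι → E n → ℝ) (B : ℝ), (∀ p, ContDiffOn ℝ ∞ (g p) {0}ᶜ) → 0 ≤ B →
      (∀ p, ∀ i ≤ N, ∀ x : E n, ‖x‖ = 1 → ‖iteratedFDeriv ℝ i (g p) x‖ ≤ B) →
      ∀ x : E n, ‖x‖ = 1 → ‖iteratedFDeriv ℝ N (fun y => ∑ p, g p y • A p y) x‖ ≤ K * B := by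
  have hM : ∀ (p : ι) (i : ℕ), ∃ M : ℝ, ∀ x ∈ sphere (0 : E n) 1,
      ‖iteratedFDerivWithin ℝ i (A p) {0}ᶜ x‖ ≤ M := by
    intro p i
    refine (isCompact_sphere (0 : E n) 1).exists_bound_of_continuousOn ?_
    refine ((hA p).continuousOn_iteratedFDerivWithin (m := i) (by exact_mod_cast le_top) uds).mono ?_
    intro x hx
    exact ne0 (by simpa using hx)
  choose M hM using hM
  refine ⟨∑ p, ∑ i ∈ Finset.range (N + 1), (N.choose i : ℝ) * |M p (N - i)|, by positivity, ?_⟩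
  intro g B hg hB hb x hx
  have hx0 := ne0 hx
  have hxs : x ∈ sphere (0 : E n) 1 := by simpa using hx
  rw [← iteratedFDerivWithin_of_isOpen N isOpen_compl_singleton hx0]
  rw [iteratedFDerivWithin_fun_sum_apply (f := fun p y => g p y • A p y) uds hx0 (fun p _ =>
    (((hg p).smul (hA p)).contDiffWithinAt hx0).of_le (by exact_mod_cast le_top))]
  refine (norm_sum_le _ _).trans ?_
  rw [Finset.sum_mul]
  refine Finset.sum_le_sum fun p _ => ?_
  refine (norm_iteratedFDerivWithin_smul_le (N := ∞) (hg p) (hA p) uds hx0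
    (by exact_mod_cast le_top)).trans ?_
  rw [Finset.sum_mul]
  refine Finset.sum_le_sum fun i hi => ?_
  have h1 : ‖iteratedFDerivWithin ℝ i (g p) {0}ᶜ x‖ ≤ B := by
    rw [iteratedFDerivWithin_of_isOpen i isOpen_compl_singleton hx0]
    exact hb p i (Nat.lt_succ_iff.1 (Finset.mem_range.1 hi)) x hx
  have h2 : ‖iteratedFDerivWithin ℝ (N - i) (A p) {0}ᶜ x‖ ≤ |M p (N - i)| :=
    (hM p (N - i) x hxs).trans (le_abs_self _)
  calc (N.choose i : ℝ) * ‖iteratedFDerivWithin ℝ i (g p) {0}ᶜ x‖ *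
        ‖iteratedFDerivWithin ℝ (N - i) (A p) {0}ᶜ x‖
      ≤ (N.choose i : ℝ) * B * |M p (N - i)| := by gcongr
    _ = (N.choose i : ℝ) * |M p (N - i)| * B := by ring

private lemma euler1 {n : ℕ} {φ : E n → ℝ} (hφ : S1 φ) {x : E n} (hx : x ≠ 0) :
    fderiv ℝ φ x x = φ x := by
  refine lineD ((cda hφ.smooth hx).differentiableAt (by simp)) ?_
  have h1 : HasDerivAt (fun τ : ℝ => (1 + τ) * φ x) (φ x) 0 := by
    simpa using ((hasDerivAt_id (0 : ℝ)).const_add 1).mul_const (φ x)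
  refine h1.congr_of_eventuallyEq ?_
  filter_upwards [lt_mem_nhds (show (-1 : ℝ) < 0 by norm_num)] with τ hτ
  have : x + τ • x = (1 + τ) • x := by rw [add_smul, one_smul]
  rw [this, hφ.hom _ (by linarith)]

/-- the coefficients -/
private noncomputable def co {n : ℕ} : Option (Fin n × Fin n) → E n → (E n →L[ℝ] ℝ)
  | none, y => (‖y‖ ^ 2)⁻¹ • innerSL ℝ y
  | some p, y => ((‖y‖ ^ 2)⁻¹ * y p.1) • (EuclideanSpace.proj p.2 : E n →L[ℝ] ℝ)

private noncomputable def gg {n : ℕ} (φ : E n → ℝ) : Option (Fin n × Fin n) → E n → ℝ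
  | none => φ
  | some p => Xd (EuclideanSpace.single p.1 (1 : ℝ)) (EuclideanSpace.single p.2 (1 : ℝ)) φ

private lemma co_smooth {n : ℕ} (p : Option (Fin n × Fin n)) : ContDiffOn ℝ ∞ (co p) ({0}ᶜ : Set (E n)) := by
  have h0 : ContDiffOn ℝ ∞ (fun y : E n => (‖y‖ ^ 2)⁻¹) ({0}ᶜ : Set (E n)) := by
    refine ContDiffOn.inv ((contDiff_norm_sq ℝ).contDiffOn) ?_
    intro y hy
    exact pow_ne_zero 2 (norm_ne_zero_iff.2 hy)
  cases p with
  | none =>
    unfold co
    exact h0.smul ((innerSL ℝ : E n →L[ℝ] E n →L[ℝ] ℝ).contDiff.contDiffOn)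
  | some p =>
    unfold co
    exact (h0.mul ((EuclideanSpace.proj p.1 : E n →L[ℝ] ℝ).contDiff.contDiffOn)).smul contDiffOn_const

private lemma formula {n : ℕ} {φ : E n → ℝ} (hφ : S1 φ) {x : E n} (hx : x ≠ 0) :
    fderiv ℝ φ x = ∑ p, gg φ p x • co p x := by
  ext v
  have hx2 : ‖x‖ ^ 2 ≠ 0 := pow_ne_zero 2 (norm_ne_zero_iff.2 hx)
  rw [Fintype.sum_option, add_apply, sum_apply,
    Fintype.sum_prod_type]
  simp only [gg, co, smul_apply, smul_eq_mul, innerSL_apply_apply]
  set D := fderiv ℝ φ x with hD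
  have hE : D x = φ x := euler1 hφ hx
  have hX : ∀ i j : Fin n, Xd (EuclideanSpace.single i (1 : ℝ)) (EuclideanSpace.single j (1 : ℝ)) φ x =
      x i * D (EuclideanSpace.single j (1 : ℝ)) - x j * D (EuclideanSpace.single i (1 : ℝ)) := by
    intro i j
    unfold Xd
    rw [← hD, map_sub, map_smul, map_smul, EuclideanSpace.inner_single_left,
      EuclideanSpace.inner_single_left]
    simp
  have hv : ∀ w : E n, D w = ∑ j, w j * D (EuclideanSpace.single j (1 : ℝ)) := by
    intro w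
    have h1 : w = ∑ j : Fin n, (w j) • EuclideanSpace.single j (1 : ℝ) := by
      have := (EuclideanSpace.basisFun (Fin n) ℝ).sum_repr w
      simpa [EuclideanSpace.basisFun_apply] using this.symm
    conv_lhs => rw [h1]
    rw [map_sum]
    simp
  have hn : ‖x‖ ^ 2 = ∑ i, x i * x i := by
    rw [EuclideanSpace.norm_sq_eq]
    refine Finset.sum_congr rfl fun i _ => ?_
    rw [Real.norm_eq_abs, sq_abs, sq]
  have hin : (inner ℝ x v : ℝ) = ∑ j, x j * v j := by
    simp [PiLp.inner_apply, mul_comm]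
  have key : ∑ i, ∑ j, Xd (EuclideanSpace.single i (1 : ℝ)) (EuclideanSpace.single j (1 : ℝ)) φ x *
      ((‖x‖ ^ 2)⁻¹ * x i * v j) = D v - (‖x‖ ^ 2)⁻¹ * φ x * inner ℝ x v := by
    have e1 : ∀ i j : Fin n, Xd (EuclideanSpace.single i (1 : ℝ)) (EuclideanSpace.single j (1 : ℝ)) φ x *
      ((‖x‖ ^ 2)⁻¹ * x i * v j) = (‖x‖ ^ 2)⁻¹ * ((x i * x i) * (v j * D (EuclideanSpace.single j (1 : ℝ)))) -
        (‖x‖ ^ 2)⁻¹ * ((x i * D (EuclideanSpace.single i (1 : ℝ))) * (x j * v j)) := by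
      intro i j
      rw [hX]; ring
    simp only [e1, Finset.sum_sub_distrib, ← Finset.mul_sum, ← Finset.sum_mul]
    rw [← hn, ← hv v, ← hv x, ← hin, hE]
    field_simp
  have e2 : ∀ i j : Fin n, Xd (EuclideanSpace.single i (1 : ℝ)) (EuclideanSpace.single j (1 : ℝ)) φ x *
      ((‖x‖ ^ 2)⁻¹ * x i * (EuclideanSpace.proj j : E n →L[ℝ] ℝ) v) =
      Xd (EuclideanSpace.single i (1 : ℝ)) (EuclideanSpace.single j (1 : ℝ)) φ x *
      ((‖x‖ ^ 2)⁻¹ * x i * v j) := fun i j => rfl
  simp only [e2, key]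
  ring

theorem hXB : StXA → StXB := by
  intro hXA n N
  obtain ⟨a1, -, -, -, a5⟩ := hXA n
  induction N with
  | zero =>
    refine ⟨1, zero_le_one, fun φ B _ _ hb j hj x hx => ?_⟩
    obtain rfl : j = 0 := Nat.le_zero.1 hj
    rw [norm_iteratedFDeriv_zero, one_mul]
    exact hb [] (by simp) x hx
  | succ N ih =>
    obtain ⟨C, hC, h⟩ := ih
    obtain ⟨C', hC', h5⟩ := a5 N
    obtain ⟨K, hK, hk⟩ := gen (n := n) co co_smooth N
    refine ⟨C + K * (C * (C' + 1)), by positivity, fun φ B hφ hB hb j hj x hx => ?_⟩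
    have hbN : Bd N φ B := fun w hw => hb w (by omega)
    rcases Nat.lt_or_ge j (N + 1) with hjN | hjN
    · have := h φ B hφ hB hbN j (by omega) x hx
      have h2 : 0 ≤ K * (C * (C' + 1)) * B := by positivity
      rw [add_mul]; linarith
    · obtain rfl : j = N + 1 := le_antisymm hj hjN
      have hx0 : x ≠ 0 := by
        intro h0; rw [h0, norm_zero] at hx; exact zero_ne_one hx
      rw [← norm_iteratedFDeriv_fderiv]
      have hev : fderiv ℝ φ =ᶠ[𝓝 x] fun y => ∑ p, gg φ p y • co p y := by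
        filter_upwards [isOpen_compl_singleton.mem_nhds hx0] with y hy
        exact formula hφ hy
      rw [(hev.iteratedFDeriv ℝ N).eq_of_nhds]
      have hgS : ∀ p, S1 (gg φ p) := by
        intro p
        cases p with
        | none => exact hφ
        | some p => exact a1 _ _ φ hφ
      have hgB : ∀ p, Bd N (gg φ p) ((C' + 1) * B) := by
        intro p
        cases p with
        | none =>
          intro w hw y hy
          have := hbN w hw y hy
          have h3 : 0 ≤ C' * B := by positivity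
          have h4 : |Xw w (gg φ none) y| ≤ B := this
          linarith [add_mul C' 1 B]
        | some p =>
          intro w hw y hy
          have := h5 (EuclideanSpace.single p.1 (1 : ℝ)) (EuclideanSpace.single p.2 (1 : ℝ)) φ B
            (by simp) (by simp) hφ hb w hw y hy
          have h4 : |Xw w (gg φ (some p)) y| ≤ C' * B := this
          linarith [add_mul C' 1 B]
      have hf := hk (gg φ) (C * ((C' + 1) * B)) (fun p => (hgS p).smooth) (by positivity)
        (fun p i hi y hy => h (gg φ p) ((C' + 1) * B) (hgS p) (by positivity) (hgB p) i hi y hy) x hx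
      refine hf.trans ?_
      have : 0 ≤ C * B := by positivity
      nlinarith

end Pool.Agent.Helper45.PM
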